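import Mathlib
import Pool.Agent.N361.MT.Main

/-!
# Five-torsion in the homology of matching complexes in the top degree of the conjectured range

`Mn n` is the matching complex of `[n]`, `Homology K d` is reduced simplicial homology with integer
coefficients, computed with the orientations given by an arbitrary linear order of the vertices
(definitions in `Pool.Agent.H742R3.Mat3` and `Pool.Agent.H742R3.Mat4`).
-/

set_option autoImplicit false

namespace Pool.Agent.Results.MP_87ad45_co.FiveTorsionTop

open Pool.Agent.H742R3.Mat

/-- For every even `n ≥ 14` the group `H̃_{(n-6)/2}(M_n; ℤ)` has an element of order `5`. -/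
theorem result (n : ℕ) (hn : 14 ≤ n) (he : Even n) [LinearOrder (Finset (Fin n))] :
    ∃ x : Homology (Mn n) (((n : ℤ) - 6) / 2), addOrderOf x = 5 := by
  obtain ⟨m, rfl⟩ := even_iff_two_dvd.1 he
  have e : (((2 * m : ℕ) : ℤ) - 6) / 2 = (m : ℤ) - 3 := by omega
  rw [e]
  exact Pool.Agent.N361.MT.main m (by omega)

end Pool.Agent.Results.MP_87ad45_co.FiveTorsionTop
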